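import Pool.Agent.MCF.One

/-!
# MP_4bc213_ag: finite mapping class group orbits of imprimitive rank 3 local systems

A rank 3 local system with trivial determinant on the `n`-punctured sphere is a tuple
`l = [A₁, …, Aₙ]` of matrices in `SL₃(ℂ)` with product `1`, up to simultaneous conjugation; the
mapping class group acts through the braid (Hurwitz) moves `HStep`, and `FiniteOrbit l` says that
the orbit is finite modulo simultaneous conjugation by `SL₃(ℂ)` (`Pool/Agent/MCF/Defs.lean`).

We consider monomial tuples: `Aᵢ` has its non-zero entries exactly at the places `(τᵢ j, j)`,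
`τᵢ ∈ S₃` (`Shape`), where the `τᵢ` generate a transitive group.  These are exactly the local
systems induced from rank one local systems on connected triple covers of the punctured sphere;
every imprimitive irreducible rank 3 local system is of this form in a suitable basis.  The
number `g` below, `2 g + 4 = ∑ ram(τᵢ)`, is the genus of the compactified triple cover
(Riemann–Hurwitz; `ram σ` is 3 minus the number of cycles of `σ`).

The theorem is a complete classification of the tuples of this kind with finite mapping class
group orbit, for every number `n` of punctures.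

The proof was found and formalised by helper77, with modules of the formalisation by helper66
(MRG), helper22 (NF), helper52 (SIX), helper86 (TOR), helper49 (IMP), helper15 (SLG).
-/

namespace Pool.Agent.Results.MP_4bc213_ag.ImprimitiveOrbits

open Equiv Pool.Agent.MCF

theorem result (l : List (Matrix.SpecialLinearGroup (Fin 3) ℂ)) (τ : List (Perm (Fin 3)))
    (hshape : List.Forall₂ (fun (A : Matrix.SpecialLinearGroup (Fin 3) ℂ) (σ : Perm (Fin 3)) =>
      Shape (A : Matrix (Fin 3) (Fin 3) ℂ) σ) l τ)
    (hprod : l.prod = 1) (htr : Transitive τ) :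
    ∃ g : ℕ, (τ.map ram).sum = 2 * g + 4 ∧
      -- genus zero: always finite
      (g = 0 → FiniteOrbit l) ∧
      -- genus one, cyclic cover
      (g = 1 → (∀ σ ∈ τ, ¬ IsRefl σ) →
        (FiniteOrbit l ↔ ∀ A ∈ l, (∀ i j, i ≠ j → (A : Matrix (Fin 3) (Fin 3) ℂ) i j = 0) →
          IsOfFinOrder A)) ∧
      -- genus one, non-cyclic cover
      (g = 1 → (∃ σ ∈ τ, IsRefl σ) →
        (FiniteOrbit l ↔ ∃ (z : ℂˣ) (k n : ℕ)
          (l' : List (Matrix.SpecialLinearGroup (Fin 3) ℂ)) (P : GL (Fin 3) ℂ)
          (π : Perm (Fin 3)), 1 ≤ k ∧ k ≤ 3 ∧ HEquiv l l' ∧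
            Shape (P : Matrix (Fin 3) (Fin 3) ℂ) π ∧
            List.Forall₂ (fun (A : Matrix.SpecialLinearGroup (Fin 3) ℂ)
              (M : Matrix (Fin 3) (Fin 3) ℂ) =>
                EqModRoots (A : Matrix (Fin 3) (Fin 3) ℂ)
                  ((P : Matrix (Fin 3) (Fin 3) ℂ) * M *
                    ((P⁻¹ : GL (Fin 3) ℂ) : Matrix (Fin 3) (Fin 3) ℂ)))
              l' (modelTuple z k n))) ∧
      -- genus at least two: only finite monodromy
      (2 ≤ g → (FiniteOrbit l ↔ Finite (Subgroup.closure {A | A ∈ l}))) := by
  obtain ⟨L, hL, hLτ⟩ := exists_aff_list l τ hshape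
  have hrel : Rel l L := hL
  have htrL : Transitive (L.map Aff.s) := by rw [hLτ]; exact htr
  have hiff := hrel.finite_iff htrL
  set M := L.map (Aff.map phi) with hM
  have hMs : M.map Aff.s = L.map Aff.s := by
    rw [hM, List.map_map]; rfl
  have hpL := hrel.prod hprod
  have hpM : M.prod = 1 := by rw [hM, List.prod_hom, hpL, map_one]
  have hM0 : AllSum0 M := hrel.sum0
  obtain ⟨parts, Z, e, hr, hZ, hram, hlen⟩ := nf_lift hpM (by rw [hMs]; exact htrL)
  rw [hMs, hLτ] at hram
  refine ⟨parts.length - 2, by omega, ?_, ?_, ?_, ?_⟩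
  · intro hg
    exact hiff.mpr (low_genus hM0 hpM e hr hZ (by omega))
  · intro hg hnr
    have hlen3 : parts.length = 3 := by omega
    have hnrM : ∀ a ∈ M, ¬ IsRefl a.s := by
      intro a ha
      apply hnr
      rw [← hLτ, ← hMs]
      exact List.mem_map_of_mem ha
    constructor
    · -- necessity
      intro hf A hA hdiag
      have hfM := hiff.mp hf
      have hZ1 := one_trivial hfM hM0 hpM e hr hZ hlen3
      -- the element of L
      have hA' : Matrix.SpecialLinearGroup.toGL A ∈ L.map Aff.mat := by
        rw [hL]; exact List.mem_map_of_mem hA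
      obtain ⟨a, ha, haA⟩ := List.mem_map.mp hA'
      have haA' : ((Aff.mat a : GL (Fin 3) ℂ) : Matrix (Fin 3) (Fin 3) ℂ) = A.1 :=
        congrArg Units.val haA
      have has : a.s = 1 := by
        ext j
        have h1 := (mat_shape a (a.s j) j).mpr rfl
        rw [haA'] at h1
        by_contra hne
        apply h1
        apply hdiag
        intro h2
        apply hne
        rw [h2]; rfl
      -- its image is trivial
      have haM : Aff.map phi a ∈ M := List.mem_map_of_mem ha
      have h1 : Aff.map phi a = 1 := by
        obtain ⟨b, hb, g, hg'⟩ := mem_conj_of_equiv e.symm _ haM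
        have hbs : b.s = 1 := by
          have : b = g⁻¹ * Aff.map phi a * g := by rw [hg']; group
          rw [this]; simp [has]
        have hb1 : b = 1 := by
          rcases List.mem_append.mp hb with hb | hb
          · exfalso
            obtain ⟨C, hC, hbC⟩ := List.mem_flatten.mp hb
            rcases rotPart_cases (hr C hC) with ⟨c, rfl, hc⟩ | ⟨x, y, rfl, hx, hy, _⟩
            · simp only [List.mem_singleton] at hbC
              subst hbC
              exact hc.1 hbs
            · simp only [List.mem_cons, List.not_mem_nil, or_false] at hbC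
              rcases hbC with rfl | rfl
              · exact hx.1 hbs
              · exact hy.1 hbs
          · exact hZ1 b hb
        rw [hg', hb1]; simp
      -- torsion
      have htor : ∀ i, ∃ n : ℕ, 0 < n ∧ n • a.v i = 0 := by
        intro i
        apply phi_ker
        exact congrFun (congrArg Aff.v h1) i
      choose n hn hn2 using htor
      have hN : (a ^ (n 0 * n 1 * n 2)) = 1 := by
        rw [eq_tr_of_s has, tr_pow]
        have : (n 0 * n 1 * n 2) • a.v = 0 := by
          ext1 i
          simp only [Pi.smul_apply, Pi.zero_apply]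
          have hd : n i ∣ n 0 * n 1 * n 2 := by
            fin_cases i
            · exact dvd_mul_of_dvd_left (dvd_mul_right _ _) _
            · exact dvd_mul_of_dvd_left (dvd_mul_left _ _) _
            · exact dvd_mul_left _ _
          obtain ⟨k, hk⟩ := hd
          rw [hk, mul_comm, mul_smul, hn2 i, smul_zero]
        rw [this]; rfl
      rw [isOfFinOrder_iff_pow_eq_one]
      refine ⟨n 0 * n 1 * n 2, by have := hn 0; have := hn 1; have := hn 2; positivity, ?_⟩
      apply Matrix.SpecialLinearGroup.toGL_injective
      rw [map_pow, ← haA, ← map_pow, hN, map_one, map_one]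
    · -- sufficiency
      intro hfin
      apply hiff.mpr
      refine genus_one_cyclic hpM e hr ?_ hlen3 hnrM
      intro z hz
      obtain ⟨b, hb, g, rfl⟩ := mem_conj_of_equiv e z (List.mem_append_right _ hz)
      have hbs : b.s = 1 := by
        have h1 := hZ _ hz
        simp only [Aff.mul_s, Aff.inv_s] at h1
        have : b.s = g.s⁻¹ * (g.s * b.s * g.s⁻¹) * g.s := by group
        rw [this, h1]; simp
      obtain ⟨a, ha, rfl⟩ := List.mem_map.mp hb
      have ha' : Aff.mat a ∈ l.map Matrix.SpecialLinearGroup.toGL := by
        rw [← hL]; exact List.mem_map_of_mem ha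
      obtain ⟨A, hA, hAa⟩ := List.mem_map.mp ha'
      have haA' : ((Aff.mat a : GL (Fin 3) ℂ) : Matrix (Fin 3) (Fin 3) ℂ) = A.1 :=
        (congrArg Units.val hAa).symm
      have has : a.s = 1 := hbs
      have hAf := hfin A hA (by
        intro i j hij
        have h1 : (A : Matrix (Fin 3) (Fin 3) ℂ) i j =
          ((Aff.mat a : GL (Fin 3) ℂ) : Matrix (Fin 3) (Fin 3) ℂ) i j := by rw [haA']
        rw [h1, Aff.mat_apply, has, if_neg]
        simpa using hij)
      rw [isOfFinOrder_iff_pow_eq_one] at hAf
      obtain ⟨m, hm, hAm⟩ := hAf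
      have ham : a ^ m = 1 := by
        apply mat_injective
        rw [map_pow, ← hAa, ← map_pow, hAm, map_one, map_one]
      have hmap1 : Aff.map phi a = 1 := by
        rw [eq_tr_of_s has, tr_pow] at ham
        apply Aff.ext'
        · ext i
          have h1 := congrFun (congrArg Aff.v ham) i
          exact phi_torsion hm h1
        · exact has
      rw [hmap1]; simp
  · intro hg hrefl
    have hlen3 : parts.length = 3 := by omega
    constructor
    · intro hf
      have hfM := hiff.mp hf
      obtain ⟨g, a, k, n, hk1, hk3, H⟩ := genus_one_all hfM hM0 hpM e hr hZ hlen3 (by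
        obtain ⟨σ, hσ, hσr⟩ := hrefl
        rw [← hLτ, ← hMs] at hσ
        obtain ⟨a, ha, rfl⟩ := List.mem_map.mp hσ
        exact ⟨a, ha, hσr⟩)
      -- lift
      have H' := H.conj g⁻¹
      rw [conjL_inv_conjL] at H'
      obtain ⟨L', eL, hL'⟩ := HEquiv.lift (Aff.map phi) (l := L) H'
      obtain ⟨l', el, hrel'⟩ := hrel.lift2 eL
      obtain ⟨z0, hz0⟩ := phi_surj a
      choose w hw using fun i => phi_surj (g⁻¹.v i)
      set G0 : Aff (Additive ℂˣ) := ⟨w, g⁻¹.s⟩ with hG0
      have hG0m : Aff.map phi G0 = g⁻¹ := by
        apply Aff.ext'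
        · ext i; exact hw i
        · rfl
      refine ⟨z0.toMul, k, n, l', Aff.mat G0, G0.s, hk1, hk3, el, mat_shape G0, ?_⟩
      -- the model tuple over ℂˣ
      set S0 : List (Aff (Additive ℂˣ)) := stdList z0 k ++ List.replicate n 1 with hS0
      have hS0m : S0.map (Aff.map phi) = stdList a k ++ List.replicate n 1 := by
        have hX : Aff.map phi (stdX z0) = stdX a := by
          apply Aff.ext'
          · ext i; fin_cases i <;> simp [stdX, hz0]
          · rfl
        have hR : Aff.map phi stdR = stdR := by
          apply Aff.ext'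
          · ext i; fin_cases i <;> simp [stdR]
          · rfl
        rw [hS0]
        simp only [stdList, List.map_append, List.map_flatten, List.map_replicate, List.map_cons,
          List.map_nil, map_mul, map_inv, hX, hR, map_one]
      have hcmp : L'.map (Aff.map phi) = (conjL G0 S0).map (Aff.map phi) := by
        rw [hL', conjL_map, hG0m, hS0m]
      have hmodel : S0.map (fun s => ((Aff.mat s : GL (Fin 3) ℂ) :
          Matrix (Fin 3) (Fin 3) ℂ)) = modelTuple z0.toMul k n := by
        rw [hS0]
        have h1 := mat_stdX z0.toMul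
        have h2 := mat_stdY z0.toMul
        have h3 := mat_stdR
        simp only [ofMul_toMul] at h1 h2
        simp only [stdList, modelTuple, List.map_append, List.map_flatten, List.map_replicate,
          List.map_cons, List.map_nil, h1, h2, h3, map_one, Units.val_one]
      rw [← hmodel]
      -- compare entries
      have hl'L : l'.map (fun A : Matrix.SpecialLinearGroup (Fin 3) ℂ =>
          (A : Matrix (Fin 3) (Fin 3) ℂ)) =
          L'.map (fun s => ((Aff.mat s : GL (Fin 3) ℂ) : Matrix (Fin 3) (Fin 3) ℂ)) := by
        have h1 := congrArg (List.map (fun u : GL (Fin 3) ℂ =>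
          (u : Matrix (Fin 3) (Fin 3) ℂ))) hrel'
        rw [List.map_map, List.map_map] at h1
        exact h1.symm
      have hF : List.Forall₂ (fun (s : Aff (Additive ℂˣ)) (t : Aff (Additive ℂˣ)) =>
          Aff.map phi s = Aff.map phi (G0 * t * G0⁻¹)) L' S0 := by
        have h1 : List.Forall₂ (fun x y => x = y) (L'.map (Aff.map phi))
            ((conjL G0 S0).map (Aff.map phi)) := by
          rw [hcmp]; exact List.forall₂_same.mpr (fun _ _ => rfl)
        rw [List.forall₂_map_left_iff, List.forall₂_map_right_iff, conjL,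
          List.forall₂_map_right_iff] at h1
        exact h1
      have hF2 : List.Forall₂ (fun (X : Matrix (Fin 3) (Fin 3) ℂ) (Y : Matrix (Fin 3) (Fin 3) ℂ)
          => EqModRoots X (((Aff.mat G0 : GL (Fin 3) ℂ) : Matrix (Fin 3) (Fin 3) ℂ) * Y *
            (((Aff.mat G0)⁻¹ : GL (Fin 3) ℂ) : Matrix (Fin 3) (Fin 3) ℂ)))
          (L'.map (fun s => ((Aff.mat s : GL (Fin 3) ℂ) : Matrix (Fin 3) (Fin 3) ℂ)))
          (S0.map (fun s => ((Aff.mat s : GL (Fin 3) ℂ) : Matrix (Fin 3) (Fin 3) ℂ))) := by
        rw [List.forall₂_map_left_iff, List.forall₂_map_right_iff]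
        refine hF.imp ?_
        intro s t hst
        have hmul : ((Aff.mat G0 : GL (Fin 3) ℂ) : Matrix (Fin 3) (Fin 3) ℂ) *
            ((Aff.mat t : GL (Fin 3) ℂ) : Matrix (Fin 3) (Fin 3) ℂ) *
            (((Aff.mat G0)⁻¹ : GL (Fin 3) ℂ) : Matrix (Fin 3) (Fin 3) ℂ) =
            ((Aff.mat (G0 * t * G0⁻¹) : GL (Fin 3) ℂ) : Matrix (Fin 3) (Fin 3) ℂ) := by
          rw [map_mul, map_mul, map_inv]; rfl
        rw [hmul]
        intro i j
        have hs' : (Aff.map phi s).s = (Aff.map phi (G0 * t * G0⁻¹)).s := by rw [hst]
        rw [Aff.map_s, Aff.map_s] at hs'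
        have hv' : (Aff.map phi s).v i = (Aff.map phi (G0 * t * G0⁻¹)).v i := by rw [hst]
        rw [Aff.map_v, Aff.map_v] at hv'
        rw [Aff.mat_apply, Aff.mat_apply]
        by_cases hij : i = s.s j
        · rw [if_pos hij, if_pos (by rw [← hs']; exact hij)]
          obtain ⟨m, hm, hm2⟩ := phi_ker (s.v i - (G0 * t * G0⁻¹).v i) (by
            rw [map_sub, hv', sub_self])
          refine ⟨(((s.v i - (G0 * t * G0⁻¹).v i).toMul : ℂˣ) : ℂ), ⟨m, hm, ?_⟩, ?_⟩
          · have h1 : (m • (s.v i - (G0 * t * G0⁻¹).v i)).toMul = 1 := by rw [hm2]; rfl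
            rw [toMul_nsmul] at h1
            have h2 := congrArg (fun u : ℂˣ => (u : ℂ)) h1
            simpa using h2
          · rw [← Units.val_mul, ← toMul_add]
            simp
        · rw [if_neg hij, if_neg (by rw [← hs']; exact hij)]
          exact ⟨1, ⟨1, one_pos, by simp⟩, by simp⟩
      rw [← hl'L, List.forall₂_map_left_iff] at hF2
      exact hF2
    · rintro ⟨z, k, n, l', P, π, hk1, hk3, el, hP, hF⟩
      obtain ⟨L', eL, hrel'⟩ := hrel.lift1 el
      obtain ⟨p, hp, _⟩ := exists_aff_of_shape P π hP
      set S0 : List (Aff (Additive ℂˣ)) := stdList (Additive.ofMul z) k ++ List.replicate n 1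
        with hS0
      have hmodel : S0.map (fun s => ((Aff.mat s : GL (Fin 3) ℂ) :
          Matrix (Fin 3) (Fin 3) ℂ)) = modelTuple z k n := by
        rw [hS0]
        have h1 := mat_stdX z
        have h2 := mat_stdY z
        have h3 := mat_stdR
        simp only [stdList, modelTuple, List.map_append, List.map_flatten, List.map_replicate,
          List.map_cons, List.map_nil, h1, h2, h3, map_one, Units.val_one]
      have hl'L : l'.map (fun A : Matrix.SpecialLinearGroup (Fin 3) ℂ =>
          (A : Matrix (Fin 3) (Fin 3) ℂ)) =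
          L'.map (fun s => ((Aff.mat s : GL (Fin 3) ℂ) : Matrix (Fin 3) (Fin 3) ℂ)) := by
        have h1 := congrArg (List.map (fun u : GL (Fin 3) ℂ =>
          (u : Matrix (Fin 3) (Fin 3) ℂ))) hrel'
        rw [List.map_map, List.map_map] at h1
        exact h1.symm
      have hF1 : List.Forall₂ (fun (X : Matrix (Fin 3) (Fin 3) ℂ)
          (Y : Matrix (Fin 3) (Fin 3) ℂ) => EqModRoots X
            ((P : Matrix (Fin 3) (Fin 3) ℂ) * Y *
              ((P⁻¹ : GL (Fin 3) ℂ) : Matrix (Fin 3) (Fin 3) ℂ)))
          (l'.map (fun A : Matrix.SpecialLinearGroup (Fin 3) ℂ =>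
            (A : Matrix (Fin 3) (Fin 3) ℂ))) (modelTuple z k n) := by
        rw [List.forall₂_map_left_iff]
        exact hF
      rw [hl'L, ← hmodel, List.forall₂_map_left_iff, List.forall₂_map_right_iff] at hF1
      have hF2 : List.Forall₂ (fun (s : Aff (Additive ℂˣ)) (t : Aff (Additive ℂˣ)) =>
          Aff.map phi s = Aff.map phi (p * t * p⁻¹)) L' S0 := by
        refine hF1.imp ?_
        intro s t hst
        have hmul : (P : Matrix (Fin 3) (Fin 3) ℂ) *
            ((Aff.mat t : GL (Fin 3) ℂ) : Matrix (Fin 3) (Fin 3) ℂ) *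
            ((P⁻¹ : GL (Fin 3) ℂ) : Matrix (Fin 3) (Fin 3) ℂ) =
            ((Aff.mat (p * t * p⁻¹) : GL (Fin 3) ℂ) : Matrix (Fin 3) (Fin 3) ℂ) := by
          rw [map_mul, map_mul, map_inv, hp]; rfl
        rw [hmul] at hst
        have hsp : s.s = (p * t * p⁻¹).s := by
          ext j
          have h1 := (mat_shape s (s.s j) j).mpr rfl
          obtain ⟨ζ, _, hζ⟩ := hst (s.s j) j
          rw [hζ] at h1
          have h2 := right_ne_zero_of_mul h1
          exact congrArg Fin.val ((mat_shape _ _ _).mp h2)
        apply Aff.ext'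
        · ext i
          obtain ⟨ζ, ⟨m, hm, hζm⟩, hζ⟩ := hst i (s.s⁻¹ i)
          rw [Aff.mat_apply, Aff.mat_apply, if_pos (by simp), if_pos (by rw [← hsp]; simp)] at hζ
          have h3 : m • (s.v i - (p * t * p⁻¹).v i) = 0 := by
            apply Additive.toMul.injective
            apply Units.ext
            rw [toMul_nsmul, toMul_sub, toMul_zero, Units.val_pow_eq_pow_val,
              Units.val_div_eq_div_val, hζ, mul_div_assoc, div_self (Units.ne_zero _), mul_one,
              hζm, Units.val_one]
          have h4 := phi_torsion hm h3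
          rw [map_sub, sub_eq_zero] at h4
          exact h4
        · exact hsp
      have hS0m : S0.map (Aff.map phi) =
          stdList (phi (Additive.ofMul z)) k ++ List.replicate n 1 := by
        have hX : Aff.map phi (stdX (Additive.ofMul z)) = stdX (phi (Additive.ofMul z)) := by
          apply Aff.ext'
          · ext i; fin_cases i <;> simp [stdX]
          · rfl
        have hR : Aff.map phi stdR = stdR := by
          apply Aff.ext'
          · ext i; fin_cases i <;> simp [stdR]
          · rfl
        rw [hS0]
        simp only [stdList, List.map_append, List.map_flatten, List.map_replicate, List.map_cons,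
          List.map_nil, map_mul, map_inv, hX, hR, map_one]
      have hcmp : L'.map (Aff.map phi) = (conjL p S0).map (Aff.map phi) := by
        rw [← List.forall₂_eq_eq_eq, List.forall₂_map_left_iff, List.forall₂_map_right_iff, conjL,
          List.forall₂_map_right_iff]
        exact hF2
      have hFO : FiniteOrbit (L'.map (Aff.map phi)) := by
        rw [hcmp, conjL_map, hS0m]
        exact (std_finite _ hk3 n).conj _
      have htrL' : Transitive (L'.map Aff.s) := by
        have h1 := (eL.map (Aff.perm (W := Additive ℂˣ))).closure_eq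
        intro i j
        obtain ⟨g, hg, hgij⟩ := htrL i j
        refine ⟨g, ?_, hgij⟩
        have h2 : L.map (Aff.perm (W := Additive ℂˣ)) = L.map Aff.s := rfl
        have h3 : L'.map (Aff.perm (W := Additive ℂˣ)) = L'.map Aff.s := rfl
        rw [h2, h3] at h1
        rw [← h1]; exact hg
      exact ((hrel'.finite_iff htrL').mpr hFO).of_equiv el.symm
  · intro hg
    constructor
    · intro hf
      obtain ⟨c, hc⟩ := high_genus (hiff.mp hf) hM0 hpM e hr hZ (by omega)
      exact hrel.closure_finite (closure_finite_aff L c hc)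
    · exact finiteOrbit_of_finite_closure l

end Pool.Agent.Results.MP_4bc213_ag.ImprimitiveOrbits
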